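import Pool.Agent.J6H12.Rec.Case1
import Pool.Agent.J6H12.Rec.Case2

/-!
# Functions determined by content and singletons are reconstructible
-/

open Function Finset

namespace Pool.Agent.Results.MP_75c0e8_co.Reconstruction

open Pool.Agent.R795.Min (DetCS IsSing content sing)
open Pool.Agent.J6H12.Rec

variable {A B : Type}

/-- Similar functions: they differ by a permutation of the arguments. -/
def Similar {n : ℕ} (f g : (Fin n → A) → B) : Prop :=
  ∃ τ : Equiv.Perm (Fin n), ∀ a : Fin n → A, f a = g (fun k => a (τ k))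

/-- Similarity as an equivalence relation. -/
def simSetoid (A B : Type) (n : ℕ) : Setoid ((Fin n → A) → B) where
  r := Similar
  iseqv :=
    { refl := fun f => ⟨1, fun a => rfl⟩
      symm := by
        rintro f g ⟨τ, h⟩
        refine ⟨τ.symm, fun a => ?_⟩
        rw [h]
        congr 1
        funext k
        simp
      trans := by
        rintro f g h ⟨τ, h1⟩ ⟨τ', h2⟩
        refine ⟨τ'.trans τ, fun a => ?_⟩
        rw [h1, h2]
        rfl }

/-- The identification minor `f_I` of a function of arity `n + 1` for `I = {i, j}` with `i < j`: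
`f_I(a_1, …, a_n) = f(a_1, …, a_{j-1}, a_i, a_j, …, a_n)`. -/
def minor {n : ℕ} (f : (Fin (n + 1) → A) → B) (i : Fin n) (j : Fin (n + 1)) : (Fin n → A) → B :=
  fun a => f (j.insertNth (a i) a)

/-- The two-element subsets `{i, j}`, `i < j`, of the set of the `n + 1` arguments. -/
def pairs (n : ℕ) : Finset (Fin n × Fin (n + 1)) := univ.filter fun p => p.1.castSucc < p.2

/-- The deck: the multiset of the similarity classes of the identification minors. -/
def deck {n : ℕ} (f : (Fin (n + 1) → A) → B) : Multiset (Quotient (simSetoid A B n)) :=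
  (pairs n).val.map fun p => Quotient.mk (simSetoid A B n) (minor f p.1 p.2)

/-- `f` is reconstructible: every function with the same deck is similar to `f`. -/
def Reconstructible {n : ℕ} (f : (Fin (n + 1) → A) → B) : Prop :=
  ∀ g : (Fin (n + 1) → A) → B, deck g = deck f → Similar g f

/-- The values of a reconstruction on the tuples with two equal entries. -/
theorem deck_data {n : ℕ} {f g : (Fin (n + 1) → A) → B} (h : deck g = deck f)
    (x1 x2 : Fin (n + 1)) (hx : x2 < x1) :
    ∃ (ρ : Equiv.Perm (Fin (n + 1))) (s : Fin (n + 1)), s ≠ x1 ∧ ∀ b : Fin (n + 1) → A,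
      b x1 = b x2 → g b = f (fun l => update b x1 (b s) (ρ l)) := by
  obtain ⟨i, rfl⟩ : ∃ i : Fin n, i.castSucc = x2 := by
    have : (x2 : ℕ) < n := by
      have h1 := x1.2
      have h2 : (x2 : ℕ) < x1 := hx
      omega
    exact ⟨⟨x2, this⟩, rfl⟩
  have hp : ((i, x1) : Fin n × Fin (n + 1)) ∈ pairs n := by
    rw [pairs, mem_filter]
    exact ⟨mem_univ _, hx⟩
  have hmem : Quotient.mk (simSetoid A B n) (minor g i x1) ∈ deck g :=
    Multiset.mem_map.mpr ⟨_, hp, rfl⟩
  rw [h] at hmem
  obtain ⟨⟨i', j'⟩, _, hij⟩ := Multiset.mem_map.mp hmem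
  have hsim : Similar (minor g i x1) (minor f i' j') :=
    (simSetoid A B n).symm (Quotient.exact hij)
  obtain ⟨σ, hσ⟩ := hsim
  set ρ : Equiv.Perm (Fin (n + 1)) :=
    (finSuccEquiv' j').trans ((Equiv.optionCongr σ).trans (finSuccEquiv' x1).symm) with hρ
  have ρ1 : ρ j' = x1 := by simp [hρ]
  have ρ2 : ∀ l, ρ (j'.succAbove l) = x1.succAbove (σ l) := by
    intro l; simp [hρ]
  refine ⟨ρ, x1.succAbove (σ i'), Fin.succAbove_ne _ _, ?_⟩
  intro b hb
  have e1 : g b = minor g i x1 (fun l => b (x1.succAbove l)) := by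
    unfold minor
    congr 1
    funext z
    rcases Fin.eq_self_or_eq_succAbove x1 z with rfl | ⟨l, rfl⟩
    · rw [Fin.insertNth_apply_same]
      show b z = b (z.succAbove i)
      rw [Fin.succAbove_of_castSucc_lt _ _ hx, hb]
    · rw [Fin.insertNth_apply_succAbove]
  rw [e1, hσ]
  unfold minor
  congr 1
  funext z
  rcases Fin.eq_self_or_eq_succAbove j' z with rfl | ⟨l, rfl⟩
  · rw [Fin.insertNth_apply_same, ρ1, update_self]
  · rw [Fin.insertNth_apply_succAbove, ρ2, update_of_ne (Fin.succAbove_ne _ _)]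

theorem finite_case [DecidableEq A] [Fintype A] {n : ℕ}
    (hn : 6 * (Fintype.card A + 2) ^ 2 + 49 * (Fintype.card A + 1) ^ 2 +
      50 * (Fintype.card A + 2) + 2 ≤ n + 1)
    (f : (Fin (n + 1) → A) → B) (hf : DetCS f) : Reconstructible f := by
  classical
  intro g hdeck
  have hD := deck_data hdeck
  have hb : bigB (Fintype.card A + 1) + 2 ≤ n + 1 := by
    unfold bigB endB
    nlinarith
  by_cases hall : ∀ x1 x2 : Fin (n + 1), x2 < x1 → ∃ ρ : Equiv.Perm (Fin (n + 1)),
      ∀ b : Fin (n + 1) → A, b x1 = b x2 → g b = f (fun l => b (ρ l))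
  · obtain ⟨τ, hτ⟩ := case2 (f := f) (g := g) hf (by
      intro x y hxy
      rcases lt_or_gt_of_ne hxy with h | h
      · obtain ⟨ρ, hρ⟩ := hall y x h
        exact ⟨ρ, fun b hb => hρ b hb.symm⟩
      · exact hall x y h) hb
    exact ⟨τ, hτ⟩
  · push Not at hall
    obtain ⟨x1, x2, hx, hno⟩ := hall
    obtain ⟨ρ, s, hs1, H1⟩ := hD x1 x2 hx
    have hs2 : s ≠ x2 := by
      rintro rfl
      obtain ⟨b, hb1, hb2⟩ := hno ρ
      apply hb2
      rw [H1 b hb1, ← hb1, update_eq_self]
    obtain ⟨y1, y2, hy, hy1, hy2⟩ : ∃ y1 y2 : Fin (n + 1), y2 < y1 ∧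
        (y1 ≠ x1 ∧ y1 ≠ x2 ∧ y1 ≠ s) ∧ (y2 ≠ x1 ∧ y2 ≠ x2 ∧ y2 ≠ s) := by
      have hcard : 1 < ((univ : Finset (Fin (n + 1))) \ {x1, x2, s}).card := by
        have h1 := le_card_sdiff ({x1, x2, s} : Finset (Fin (n + 1))) univ
        have h2 : ({x1, x2, s} : Finset (Fin (n + 1))).card ≤ 3 := card_le_three
        rw [card_univ, Fintype.card_fin] at h1
        omega
      obtain ⟨a, ha, b, hb, hab⟩ := one_lt_card.mp hcard
      simp only [mem_sdiff, mem_univ, true_and, mem_insert, mem_singleton, not_or] at ha hb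
      rcases lt_or_gt_of_ne hab with h | h
      · exact ⟨b, a, h, hb, ha⟩
      · exact ⟨a, b, h, ha, hb⟩
    obtain ⟨ρ', s', hs', H2⟩ := hD y1 y2 hy
    obtain ⟨ρ0, S0, p0, hM⟩ := exists_moveData hx.ne' hs1 hs2 hy1.1 hy1.2.1 hy1.2.2
      hy2.1 hy2.2.1 hy2.2.2 H1 H2
    refine ⟨1, fun b => ?_⟩
    obtain ⟨u, v, huv, hbuv⟩ : ∃ u v : Fin (n + 1), v < u ∧ b u = b v := by
      obtain ⟨u, hu, v, hv, huv, hb⟩ := exists_ne_map_eq_of_card_lt_of_maps_to
        (s := (univ : Finset (Fin (n + 1)))) (t := (univ : Finset A)) (f := b) (by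
          rw [card_univ, card_univ, Fintype.card_fin]
          nlinarith) (fun _ _ => mem_univ _)
      rcases lt_or_gt_of_ne huv with h | h
      · exact ⟨v, u, h, hb.symm⟩
      · exact ⟨u, v, h, hb⟩
    obtain ⟨ρ1, s1, hs1', H3⟩ := hD u v huv
    rw [H3 b hbuv]
    have hcard : (univ.image b).card ≤ Fintype.card A := card_le_univ _
    apply depends_on_support hf hM (supp := univ.image b) (s1 := b u)
      (mem_image_of_mem _ (mem_univ _)) (by nlinarith) (by nlinarith) _ _ _ ?_ ?_ rfl
    · intro a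
      rw [mult_pos_iff, mem_image]
      constructor
      · rintro ⟨z, _, rfl⟩
        by_cases hz : z = u
        · refine ⟨ρ1.symm v, ?_⟩
          rw [Equiv.apply_symm_apply, update_of_ne huv.ne, hz, hbuv]
        · refine ⟨ρ1.symm z, ?_⟩
          rw [Equiv.apply_symm_apply, update_of_ne hz]
      · rintro ⟨i, rfl⟩
        by_cases hz : ρ1 i = u
        · exact ⟨s1, mem_univ _, by rw [hz, update_self]⟩
        · exact ⟨ρ1 i, mem_univ _, by rw [update_of_ne hz]⟩
    · intro a
      rw [mult_pos_iff, mem_image]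
      simp

theorem infinite_case [DecidableEq A] [Infinite A] [Nontrivial B] (n : ℕ) :
    ∃ f : (Fin (n + 1) → A) → B, DetCS f ∧ ¬ Reconstructible f := by
  classical
  obtain ⟨b0, b1, hb⟩ := exists_pair_ne B
  set f : (Fin (n + 1) → A) → B := fun _ => b0 with hf
  set g : (Fin (n + 1) → A) → B := fun a => if Injective a then b1 else b0 with hg
  refine ⟨f, fun _ _ _ _ => rfl, fun hrec => ?_⟩
  have hdeck : deck g = deck f := by
    unfold deck
    apply Multiset.map_congr rfl
    rintro ⟨i, j⟩ _
    have : minor f i j = minor g i j := by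
      funext a
      simp only [minor, hf, hg]
      rw [if_neg]
      intro hi
      have : j = j.succAbove i := hi (by simp)
      exact Fin.succAbove_ne j i this.symm
    rw [this]
  obtain ⟨τ, hτ⟩ := hrec g hdeck
  set a : Fin (n + 1) → A := fun k => Infinite.natEmbedding A k with ha
  have hai : Injective a := fun x y hxy =>
    Fin.ext ((Infinite.natEmbedding A).injective hxy)
  have h1 := hτ a
  simp only [hf, hg] at h1
  rw [if_pos hai] at h1
  exact hb h1.symm

/-- Question 1. For a finite set `A` with `q` elements and every `B`, every function `A^m → B`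
of arity `m = n + 1 ≥ 6 (q+2)^2 + 49 (q+1)^2 + 50 (q+2) + 2` which is determined by content and
singletons is reconstructible. If `A` is infinite and `B` has at least two elements, then in every
arity `m ≥ 2` some function determined by content and singletons is not reconstructible. -/
theorem result (A B : Type) [DecidableEq A] :
    (∀ [Fintype A] (n : ℕ), 6 * (Fintype.card A + 2) ^ 2 + 49 * (Fintype.card A + 1) ^ 2 +
      50 * (Fintype.card A + 2) + 2 ≤ n + 1 →
      ∀ f : (Fin (n + 1) → A) → B, DetCS f → Reconstructible f) ∧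
    (Infinite A → Nontrivial B → ∀ n : ℕ, 1 ≤ n →
      ∃ f : (Fin (n + 1) → A) → B, DetCS f ∧ ¬ Reconstructible f) := by
  constructor
  · intro _ n hn f hf
    exact finite_case hn f hf
  · intro _ _ n _
    exact infinite_case n

end Pool.Agent.Results.MP_75c0e8_co.Reconstruction
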